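import Pool.Agent.H622R2.StrongDivRed
import Pool.Agent.NPC.Dec
import Pool.Agent.NPC.Sat
import Pool.Agent.H25R3.Cones.Compl

/-!
# Recognising strongly 2-divisible graphs is coNP-hard

The input is a finite simple graph, given by an adjacency matrix `M : List (List Bool)` (`matGraph M`
is the graph); the question is whether every induced subgraph has a 2-clique-colouring.  The
reduction (from the complement of 3SAT) is `Pool.Agent.H622R2.sdRed`.
-/

set_option autoImplicit false

namespace Pool.Agent.Results.MP_65ccf5_lc.StronglyDivisibleCoNPHard

open Pool.Agent.NPC Pool.Agent.H622R2 Pool.Agent.H25R3.Cones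

theorem hardI_not_sd :
    HardI (fun M : List (List Bool) => ¬ StronglyDivisible 2 (matGraph M)) :=
  HardI.trans (Q := fun M : List (List Bool) => ¬ StronglyDivisible 2 (matGraph M)) hardI_SAT3
    sdRed_poly (fun φ => sdRed_correct φ)

/-- Recognising strongly `2`-divisible graphs is `coNP`-hard under polynomial-time many-one
reductions; hence there is no polynomial-time algorithm for it unless `P = NP`. -/
theorem result : CoNPHardP (fun M : List (List Bool) => StronglyDivisible 2 (matGraph M)) ∧
    (InPP (fun M : List (List Bool) => StronglyDivisible 2 (matGraph M)) →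
      ∀ L : Set (List Bool), InNP L → InP L) :=
  ⟨hardI_not_sd.toCoNPHardP, coNPHardP_collapse hardI_not_sd.toCoNPHardP⟩

end Pool.Agent.Results.MP_65ccf5_lc.StronglyDivisibleCoNPHard
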